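import Pool.Agent.H542.LM.StmP

/-!
# Project LM (helper542), task MODP (helper227): the sum of the squares of the linear form over the
`T` with `α_m T ^ 2 + β_m` irreducible
-/

set_option autoImplicit false
set_option maxHeartbeats 1000000
set_option linter.unusedSectionVars false

namespace Pool.Agent.H542.LM.MODP

open Polynomial
open scoped Classical
open Pool.Agent.H694.Typ (Mn PU mem_Mn card_Mn)

section local_count

variable {K : Type} [Field K] [Fintype K]

theorem q2 : (2 : ℝ) ≤ (Fintype.card K : ℝ) := by exact_mod_cast Fintype.one_lt_card (α := K)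

theorem card_Rs (P : K[X]) : (Rs P).card = Fintype.card K ^ P.natDegree := by
  unfold Rs
  rw [Finset.card_image_of_injective _ (fun a b h => sub_left_injective h), card_Mn]

theorem uniq [CharP K 2] {P α β t t' : K[X]} (hP : P.Monic) (hI : Irreducible P) (hα : ¬ P ∣ α)
    (ht : t ∈ Rs P) (ht' : t' ∈ Rs P) (h : P ∣ (α * t ^ 2 + β) - (α * t' ^ 2 + β)) : t = t' := by
  have h2 : (2 : K[X]) = 0 := by
    have := CharP.cast_eq_zero K[X] 2
    exact_mod_cast this
  have h3 : (α * t ^ 2 + β) - (α * t' ^ 2 + β) = α * (t - t') ^ 2 := by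
    linear_combination (α * t * t' - α * t' ^ 2) * h2
  rw [h3] at h
  have hp : Prime P := hI.prime
  have h4 := (hp.dvd_or_dvd h).resolve_left hα
  have h5 := hp.dvd_of_dvd_pow h4
  have h6 : (t - t').degree < (P.natDegree : WithBot ℕ) :=
    lt_of_le_of_lt (degree_sub_le _ _) (max_lt (mem_Rs.1 ht) (mem_Rs.1 ht'))
  by_contra hne
  have h7 := degree_le_of_dvd h5 (sub_ne_zero.2 hne)
  rw [degree_eq_natDegree hP.ne_zero] at h7
  exact absurd (lt_of_lt_of_le h6 h7) (lt_irrefl _)

theorem exists_root [CharP K 2] {P α β : K[X]} (hP : P.Monic) (hI : Irreducible P)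
    (hα : ¬ P ∣ α) : ∃ t ∈ Rs P, P ∣ α * t ^ 2 + β := by
  have hmaps : Set.MapsTo (fun t => (α * t ^ 2 + β) %ₘ P) (Rs P : Set K[X]) (Rs P : Set K[X]) := by
    intro t _
    rw [Finset.mem_coe, mem_Rs, ← degree_eq_natDegree hP.ne_zero]
    exact degree_modByMonic_lt _ hP
  have hinj : Set.InjOn (fun t => (α * t ^ 2 + β) %ₘ P) (Rs P : Set K[X]) := by
    intro t ht t' ht' h
    refine uniq (β := β) hP hI hα (Finset.mem_coe.1 ht) (Finset.mem_coe.1 ht') ?_
    have h1 : ((α * t ^ 2 + β) - (α * t' ^ 2 + β)) %ₘ P = 0 := by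
      rw [sub_modByMonic]
      exact sub_eq_zero.2 h
    exact (modByMonic_eq_zero_iff_dvd hP).1 h1
  have h0 : (0 : K[X]) ∈ (Rs P : Set K[X]) := by
    rw [Finset.mem_coe, mem_Rs, degree_zero]
    exact WithBot.bot_lt_coe _
  obtain ⟨t, ht, h⟩ := Finset.surjOn_of_injOn_of_card_le _ hmaps hinj le_rfl h0
  exact ⟨t, Finset.mem_coe.1 ht, (modByMonic_eq_zero_iff_dvd hP).1 h⟩

theorem card_nonroot [CharP K 2] {P α β : K[X]} (hP : P.Monic) (hI : Irreducible P)
    (hα : ¬ P ∣ α) :
    (((Rs P).filter (fun t => ¬ P ∣ α * t ^ 2 + β)).card : ℝ) =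
      (Fintype.card K : ℝ) ^ P.natDegree - 1 := by
  obtain ⟨t₀, ht₀, h₀⟩ := exists_root (β := β) hP hI hα
  have h1 : (Rs P).filter (fun t => P ∣ α * t ^ 2 + β) = {t₀} := by
    ext t
    rw [Finset.mem_filter, Finset.mem_singleton]
    constructor
    · rintro ⟨ht, h⟩
      exact uniq hP hI hα ht ht₀ (dvd_sub h h₀)
    · rintro rfl
      exact ⟨ht₀, h₀⟩
  have h2 := Finset.card_filter_add_card_filter_not (s := Rs P) (fun t => P ∣ α * t ^ 2 + β)
  rw [h1, Finset.card_singleton, card_Rs] at h2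
  have h3 : ((1 + ((Rs P).filter (fun t => ¬ P ∣ α * t ^ 2 + β)).card : ℕ) : ℝ) =
      ((Fintype.card K ^ P.natDegree : ℕ) : ℝ) := by rw [h2]
  push_cast at h3
  linarith

theorem qn {P : K[X]} (hI : Irreducible P) : (2 : ℝ) ≤ (Fintype.card K : ℝ) ^ P.natDegree := by
  have h1 : 1 ≤ P.natDegree := hI.natDegree_pos
  calc (2 : ℝ) ≤ Fintype.card K := q2
    _ = (Fintype.card K : ℝ) ^ 1 := (pow_one _).symm
    _ ≤ _ := pow_le_pow_right₀ (by linarith [q2 (K := K)]) h1

/-- the local factor -/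
noncomputable def gf {k : ℕ} (α β : Fin k → K[X]) (m : Fin k) (P t : K[X]) : ℝ :=
  ((Fintype.card K : ℝ) ^ P.natDegree - 1)⁻¹ * (if P ∣ fv α β m t then 0 else 1)

theorem sum_gf {k : ℕ} (α β : Fin k → K[X]) (m : Fin k) (P : K[X]) (F : K[X] → ℝ) :
    ∑ t ∈ Rs P, gf α β m P t * F t = ((Fintype.card K : ℝ) ^ P.natDegree - 1)⁻¹ *
      ∑ t ∈ (Rs P).filter (fun t => ¬ P ∣ α m * t ^ 2 + β m), F t := by
  rw [Finset.sum_filter, Finset.mul_sum]
  refine Finset.sum_congr rfl fun t _ => ?_
  unfold gf fv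
  by_cases h : P ∣ α m * t ^ 2 + β m
  · rw [if_pos h, if_neg (not_not.2 h)]
    ring
  · rw [if_neg h, if_pos h]
    ring

theorem sum_gf_one [CharP K 2] {k : ℕ} (α β : Fin k → K[X]) (m : Fin k) {P : K[X]}
    (hP : P.Monic) (hI : Irreducible P) (hα : ¬ P ∣ α m) : ∑ t ∈ Rs P, gf α β m P t * 1 = 1 := by
  rw [sum_gf, Finset.sum_const, nsmul_eq_mul, mul_one, card_nonroot hP hI hα]
  have := qn hI
  exact inv_mul_cancel₀ (by linarith)

theorem ph_le {k : ℕ} (α β : Fin k → K[X]) {P : K[X]} (hI : Irreducible P) (t : K[X])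
    (i : Option (Fin k)) : |ph α β P t i| ≤ 1 := by
  have h1 := qn hI
  cases i with
  | none =>
    show |(1 : ℝ)| ≤ 1
    rw [abs_one]
  | some i =>
    show |(if P ∣ fv α β i t then (1 : ℝ) else 0) -
      1 / ((Fintype.card K : ℝ) ^ P.natDegree - 1)| ≤ 1
    have h2 : 0 < 1 / ((Fintype.card K : ℝ) ^ P.natDegree - 1) := by
      apply one_div_pos.2
      linarith
    have h3 : 1 / ((Fintype.card K : ℝ) ^ P.natDegree - 1) ≤ 1 := by
      rw [div_le_one (by linarith)]
      linarith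
    split_ifs
    · rw [abs_le]
      constructor <;> linarith
    · rw [abs_le]
      constructor <;> linarith

theorem ph_per {k : ℕ} (α β : Fin k → K[X]) (P t u : K[X]) (i : Option (Fin k)) :
    ph α β P (t + P * u) i = ph α β P t i := by
  cases i with
  | none => rfl
  | some i =>
    have h1 : fv α β i (t + P * u) = fv α β i t + P * (α i * (2 * t * u + P * u ^ 2)) := by
      unfold fv
      ring
    have h2 : P ∣ fv α β i (t + P * u) ↔ P ∣ fv α β i t := by
      rw [h1]
      exact dvd_add_left (dvd_mul_right _ _)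
    show (if P ∣ fv α β i (t + P * u) then (1 : ℝ) else 0) -
      1 / ((Fintype.card K : ℝ) ^ P.natDegree - 1) = (if P ∣ fv α β i t then (1 : ℝ) else 0) -
      1 / ((Fintype.card K : ℝ) ^ P.natDegree - 1)
    rw [if_congr h2 rfl rfl]

end local_count

section counting

variable {K : Type} [Field K] [Fintype K]

/-- the subsets of total degree at most `R` -/
theorem card_sub (S : Finset K[X]) (R : ℕ) (hS : ∀ P ∈ S, P.Monic ∧ Irreducible P) :
    ((Finset.univ : Finset (Finset S)).filter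
      (fun a : Finset S => ∑ x ∈ a, (x : K[X]).natDegree ≤ R)).card ≤ Fintype.card K ^ (R + 1) := by
  have h1 : ((Finset.univ : Finset (Finset S)).filter
      (fun a : Finset S => ∑ x ∈ a, (x : K[X]).natDegree ≤ R)).card ≤
      ((Finset.range (R + 1)).biUnion (Mn K)).card := by
    refine Finset.card_le_card_of_injOn (fun a : Finset S => ∏ x ∈ a, (x : K[X])) ?_ ?_
    · intro a ha
      rw [Finset.mem_coe, Finset.mem_filter] at ha
      rw [Finset.mem_coe, Finset.mem_biUnion]
      refine ⟨∑ x ∈ a, (x : K[X]).natDegree, Finset.mem_range.2 (Nat.lt_succ_of_le ha.2), ?_⟩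
      rw [mem_Mn]
      exact ⟨monic_prod_of_monic _ _ fun x _ => (hS x x.2).1,
        natDegree_prod_of_monic _ _ fun x _ => (hS x x.2).1⟩
    · have key : ∀ a b : Finset S, ∏ x ∈ a, (x : K[X]) = ∏ x ∈ b, (x : K[X]) → a ⊆ b := by
        intro a b hab x hx
        have h2 : (x : K[X]) ∣ ∏ x ∈ b, (x : K[X]) := by
          rw [← hab]
          exact Finset.dvd_prod_of_mem (fun x : S => (x : K[X])) hx
        have h3 := (hS x x.2).2.prime
        obtain ⟨y, hy, hxy⟩ := (h3.dvd_finsetProd_iff _).1 h2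
        have h4 : Associated (x : K[X]) (y : K[X]) :=
          (hS x x.2).2.associated_of_dvd (hS y y.2).2 hxy
        have h5 : (x : K[X]) = (y : K[X]) :=
          eq_of_monic_of_associated (hS x x.2).1 (hS y y.2).1 h4
        rwa [Subtype.ext h5]
      intro a _ b _ hab
      exact Finset.Subset.antisymm (key a b hab) (key b a hab.symm)
  refine h1.trans (Finset.card_biUnion_le.trans ?_)
  rw [Finset.sum_congr rfl fun j _ => card_Mn (k := K) j]
  exact (Nat.geomSum_lt Fintype.one_lt_card fun k hk => Finset.mem_range.1 hk).le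

theorem card_fib {k w : ℕ} (S : Finset K[X]) (hk : k ≤ 2 ^ w)
    (hS : ∀ P ∈ S, w < P.natDegree) (a : Finset S) :
    ((Finset.univ : Finset (S → Option (Fin k))).filter
      (fun r => Finset.univ.filter (fun x => r x ≠ none) = a)).card ≤
        2 ^ ∑ x ∈ a, (x : K[X]).natDegree := by
  have h1 : (Finset.univ : Finset (S → Option (Fin k))).filter
      (fun r => Finset.univ.filter (fun x => r x ≠ none) = a) ⊆
      Fintype.piFinset (fun x : S => if x ∈ a then (Finset.univ : Finset (Fin k)).image some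
        else {none}) := by
    intro r hr
    rw [Finset.mem_filter] at hr
    rw [Fintype.mem_piFinset]
    intro x
    have h2 : x ∈ a ↔ r x ≠ none := by
      rw [← hr.2, Finset.mem_filter]
      exact ⟨fun h => h.2, fun h => ⟨Finset.mem_univ _, h⟩⟩
    by_cases hx : x ∈ a
    · rw [if_pos hx, Finset.mem_image]
      obtain ⟨i, hi⟩ := Option.ne_none_iff_exists'.1 (h2.1 hx)
      exact ⟨i, Finset.mem_univ _, hi.symm⟩
    · rw [if_neg hx, Finset.mem_singleton]
      by_contra h
      exact hx (h2.2 h)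
  refine (Finset.card_le_card h1).trans ?_
  rw [Fintype.card_piFinset, ← Finset.prod_pow_eq_pow_sum,
    ← Finset.prod_subset (Finset.subset_univ a) (fun x _ hx => by
      rw [if_neg hx, Finset.card_singleton])]
  refine Finset.prod_le_prod' fun x hx => ?_
  rw [if_pos hx]
  refine Finset.card_image_le.trans ?_
  rw [Finset.card_univ, Fintype.card_fin]
  exact hk.trans (Nat.pow_le_pow_right (by norm_num) (hS x x.2).le)

/-- the number of the assignments of length at most `R` -/
theorem card_tl {k w R : ℕ} (S : Finset K[X]) (hk : k ≤ 2 ^ w)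
    (hS : ∀ P ∈ S, P.Monic ∧ Irreducible P ∧ w < P.natDegree) :
    ((Finset.univ : Finset (S → Option (Fin k))).filter
      (fun r => tl (fun x : S => (x : K[X]).natDegree) r ≤ R)).card ≤
        Fintype.card K ^ (2 * R + 1) := by
  have h1 : ∀ r : S → Option (Fin k), tl (fun x : S => (x : K[X]).natDegree) r =
      ∑ x ∈ Finset.univ.filter (fun x => r x ≠ none), (x : K[X]).natDegree := by
    intro r
    unfold tl
    rw [Finset.sum_filter]
    refine Finset.sum_congr rfl fun x _ => ?_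
    by_cases h : r x = none
    · rw [if_pos h, if_neg (not_not.2 h)]
    · rw [if_neg h, if_pos h]
  have h2 := Finset.card_le_mul_card_image_of_maps_to
    (s := (Finset.univ : Finset (S → Option (Fin k))).filter
      (fun r => tl (fun x : S => (x : K[X]).natDegree) r ≤ R))
    (t := (Finset.univ : Finset (Finset S)).filter
      (fun a : Finset S => ∑ x ∈ a, (x : K[X]).natDegree ≤ R))
    (f := fun r => Finset.univ.filter (fun x => r x ≠ none)) (fun r hr => by
      rw [Finset.mem_filter] at hr ⊢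
      refine ⟨Finset.mem_univ _, ?_⟩
      rw [← h1]
      exact hr.2) (2 ^ R) (fun a ha => by
      rw [Finset.mem_filter] at ha
      have h3 := card_fib S hk (fun P hP => (hS P hP).2.2) a
      refine le_trans (Finset.card_le_card ?_) (h3.trans (Nat.pow_le_pow_right (by norm_num) ha.2))
      intro r hr
      rw [Finset.mem_filter] at hr
      rw [Finset.mem_filter]
      exact ⟨Finset.mem_univ _, hr.2⟩)
  have h4 := card_sub S R (fun P hP => ⟨(hS P hP).1, (hS P hP).2.1⟩)
  have h5 : 2 ≤ Fintype.card K := Fintype.one_lt_card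
  calc _ ≤ 2 ^ R * _ := h2
    _ ≤ Fintype.card K ^ R * Fintype.card K ^ (R + 1) :=
        Nat.mul_le_mul (Nat.pow_le_pow_left h5 R) h4
    _ = Fintype.card K ^ (2 * R + 1) := by
        rw [← pow_add]
        congr 1
        ring

end counting

section pairs

variable {K : Type} [Field K] [Fintype K]

theorem prodE {S : Finset K[X]} (E : Finset S) (Φ : K[X] → ℝ) (f : S → ℝ)
    (h1 : ∀ x ∈ E, Φ (x : K[X]) = f x) (h2 : ∀ x, x ∉ E → f x = 1) :
    ∏ P ∈ E.image (fun x : S => (x : K[X])), Φ P = ∏ x : S, f x := by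
  rw [Finset.prod_image (fun a _ b _ h => Subtype.ext h), Finset.prod_congr rfl h1]
  exact Finset.prod_subset (Finset.subset_univ _) fun x _ hx => h2 x hx

/-- the function for CRTP -/
noncomputable def hh {k : ℕ} (α β : Fin k → K[X]) (S : Finset K[X]) (r s : S → Option (Fin k))
    (P T : K[X]) : ℝ :=
  if hP : P ∈ S then ph α β P T (r ⟨P, hP⟩) * ph α β P T (s ⟨P, hP⟩) else 1

theorem hh_coe {k : ℕ} (α β : Fin k → K[X]) (S : Finset K[X]) (r s : S → Option (Fin k))
    (x : S) (T : K[X]) : hh α β S r s (x : K[X]) T =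
      ph α β (x : K[X]) T (r x) * ph α β (x : K[X]) T (s x) := by
  unfold hh
  rw [dif_pos x.2]

theorem pair {k d R w d₀ : ℕ} {c θ : ℝ} [CharP K 2]
    (hcrt : ∀ (α β W v : K[X]) (S : Finset K[X]) (h : K[X] → K[X] → ℝ) (d : ℕ), α ≠ 0 →
      IsCoprime α β → ¬ IsSquare (α * β) → d₀ ≤ d → W.Monic → IsCoprime (α * v ^ 2 + β) W →
      (∀ P ∈ S, P.Monic ∧ Irreducible P ∧ ¬ P ∣ W ∧ ¬ P ∣ α) →
      (∀ P ∈ S, ∀ t u : K[X], h P (t + P * u) = h P t) → (∀ P ∈ S, ∀ t, |h P t| ≤ 1) →
      ((α.natDegree + β.natDegree + W.natDegree + ∑ P ∈ S, P.natDegree : ℕ) : ℝ) ≤ θ * d →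
      |(2 * (d : ℝ) + α.natDegree) *
          (∑ T ∈ (Tc K d W v).filter (fun T => Irreducible (α * T ^ 2 + β)), ∏ P ∈ S, h P T) -
          (Fintype.card K : ℝ) ^ (d - W.natDegree) / Ph (α * W) *
            ∏ P ∈ S, (((Fintype.card K : ℝ) ^ P.natDegree - 1)⁻¹ *
              ∑ t ∈ (Rs P).filter (fun t => ¬ P ∣ α * t ^ 2 + β), h P t)| ≤
        (Fintype.card K : ℝ) ^ ((∑ P ∈ S, P.natDegree : ℕ) + (1 - c) * d))
    (α β : Fin k → K[X]) (m : Fin k) (W v : K[X]) (S : Finset K[X])
    (hd : d₀ ≤ d) (hα : α m ≠ 0) (hcop : IsCoprime (α m) (β m)) (hsq : ¬ IsSquare (α m * β m))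
    (hW : W.Monic) (hv : IsCoprime (fv α β m v) W)
    (hS : ∀ P ∈ S, P.Monic ∧ Irreducible P ∧ w < P.natDegree ∧ ¬ P ∣ W ∧ ¬ P ∣ α m)
    (hdeg : (((α m).natDegree + (β m).natDegree + W.natDegree + 2 * R : ℕ) : ℝ) ≤ θ * d)
    (r s : S → Option (Fin k)) (hr : tl (fun x : S => (x : K[X]).natDegree) r ≤ R)
    (hs : tl (fun x : S => (x : K[X]).natDegree) s ≤ R) :
    |(2 * (d : ℝ) + (α m).natDegree) *
        (∑ T ∈ (Tc K d W v).filter (fun T => Irreducible (fv α β m T)),
          ∏ x : S, (ph α β (x : K[X]) T (r x) * ph α β (x : K[X]) T (s x))) -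
        (Fintype.card K : ℝ) ^ (d - W.natDegree) / Ph (α m * W) *
          ∏ x : S, ∑ t ∈ Rs (x : K[X]), gf α β m (x : K[X]) t *
            (ph α β (x : K[X]) t (r x) * ph α β (x : K[X]) t (s x))| ≤
      (Fintype.card K : ℝ) ^ (2 * (R : ℝ) + (1 - c) * d) := by
  obtain ⟨E, hE⟩ : ∃ E : Finset S, E = Finset.univ.filter (fun x => ¬ (r x = none ∧ s x = none)) :=
    ⟨_, rfl⟩
  have hnE : ∀ x, x ∉ E → r x = none ∧ s x = none := by
    intro x hx
    by_contra h
    apply hx
    rw [hE, Finset.mem_filter]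
    exact ⟨Finset.mem_univ _, h⟩
  have hmem : ∀ P ∈ E.image (fun x : S => (x : K[X])), P ∈ S := by
    intro P hP
    rw [Finset.mem_image] at hP
    obtain ⟨x, -, rfl⟩ := hP
    exact x.2
  have hsum : ∑ P ∈ E.image (fun x : S => (x : K[X])), P.natDegree ≤ 2 * R := by
    rw [Finset.sum_image (fun a _ b _ h => Subtype.ext h)]
    have h1 : ∑ x ∈ E, (x : K[X]).natDegree ≤
        tl (fun x : S => (x : K[X]).natDegree) r + tl (fun x : S => (x : K[X]).natDegree) s := by
      unfold tl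
      rw [hE, Finset.sum_filter, ← Finset.sum_add_distrib]
      refine Finset.sum_le_sum fun x _ => ?_
      by_cases h1 : r x = none
      · by_cases h2 : s x = none
        · rw [if_neg (not_not.2 ⟨h1, h2⟩)]
          exact Nat.zero_le _
        · rw [if_pos (fun h => h2 h.2), if_neg h2]
          exact Nat.le_add_left _ _
      · rw [if_pos (fun h => h1 h.1), if_neg h1]
        exact Nat.le_add_right _ _
    omega
  have hq1 : (1 : ℝ) ≤ (Fintype.card K : ℝ) := by linarith [q2 (K := K)]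
  have key := hcrt (α m) (β m) W v (E.image (fun x : S => (x : K[X]))) (hh α β S r s) d hα hcop hsq
    hd hW hv (fun P hP => by
      obtain ⟨h1, h2, -, h4, h5⟩ := hS P (hmem P hP)
      exact ⟨h1, h2, h4, h5⟩) (fun P hP t u => by
      have h1 := hmem P hP
      unfold hh
      rw [dif_pos h1, dif_pos h1, ph_per, ph_per]) (fun P hP t => by
      have h1 := hmem P hP
      unfold hh
      rw [dif_pos h1, abs_mul]
      exact mul_le_one₀ (ph_le α β (hS P h1).2.1 t _) (abs_nonneg _)
        (ph_le α β (hS P h1).2.1 t _)) (by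
      refine le_trans ?_ hdeg
      exact_mod_cast Nat.add_le_add_left hsum _)
  have e1 : ∀ T : K[X], ∏ P ∈ E.image (fun x : S => (x : K[X])), hh α β S r s P T =
      ∏ x : S, (ph α β (x : K[X]) T (r x) * ph α β (x : K[X]) T (s x)) := by
    intro T
    refine prodE E (fun P => hh α β S r s P T) _ (fun x _ => hh_coe α β S r s x T) ?_
    intro x hx
    rw [(hnE x hx).1, (hnE x hx).2]
    exact mul_one (1 : ℝ)
  have e2 : ∏ P ∈ E.image (fun x : S => (x : K[X])),
      (((Fintype.card K : ℝ) ^ P.natDegree - 1)⁻¹ *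
        ∑ t ∈ (Rs P).filter (fun t => ¬ P ∣ α m * t ^ 2 + β m), hh α β S r s P t) =
      ∏ x : S, ∑ t ∈ Rs (x : K[X]), gf α β m (x : K[X]) t *
        (ph α β (x : K[X]) t (r x) * ph α β (x : K[X]) t (s x)) := by
    refine prodE E (fun P => ((Fintype.card K : ℝ) ^ P.natDegree - 1)⁻¹ *
      ∑ t ∈ (Rs P).filter (fun t => ¬ P ∣ α m * t ^ 2 + β m), hh α β S r s P t) _ ?_ ?_
    · intro x _
      show ((Fintype.card K : ℝ) ^ (x : K[X]).natDegree - 1)⁻¹ *
        ∑ t ∈ (Rs (x : K[X])).filter (fun t => ¬ (x : K[X]) ∣ α m * t ^ 2 + β m),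
          hh α β S r s (x : K[X]) t = _
      rw [Finset.sum_congr rfl fun t _ => hh_coe α β S r s x t, ← sum_gf]
    · intro x hx
      rw [(hnE x hx).1, (hnE x hx).2]
      obtain ⟨h1, h2, -, -, h5⟩ := hS x x.2
      rw [← sum_gf_one α β m h1 h2 h5]
      refine Finset.sum_congr rfl fun t _ => ?_
      congr 1
      exact mul_one (1 : ℝ)
  rw [e2, Finset.sum_congr rfl fun T _ => e1 T] at key
  refine le_trans key ?_
  refine Real.rpow_le_rpow_of_exponent_le hq1 ?_
  have h3 : ((∑ P ∈ E.image (fun x : S => (x : K[X])), P.natDegree : ℕ) : ℝ) ≤ 2 * R := by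
    exact_mod_cast hsum
  linarith

theorem sq_exp {k : ℕ} {S : Finset K[X]} (c : (S → Option (Fin k)) → ℝ)
    (F : S → Option (Fin k) → ℝ) :
    (∑ r : S → Option (Fin k), c r * ∏ x : S, F x (r x)) ^ 2 =
      ∑ r : S → Option (Fin k), ∑ s : S → Option (Fin k), c r * c s *
        ∏ x : S, (F x (r x) * F x (s x)) := by
  rw [sq, Finset.sum_mul_sum]
  refine Finset.sum_congr rfl fun r _ => Finset.sum_congr rfl fun s _ => ?_
  rw [Finset.prod_mul_distrib]
  ring

end pairs

/-- **MODP** -/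
theorem main : S_tmodp := by
  intro hcrtp K _ _ _
  obtain ⟨c, θ, hc, hθ, hθ1, d₀, hcrt⟩ := hcrtp K
  refine ⟨c, θ, hc, hθ, hθ1, d₀, ?_⟩
  intro k d R w α β m W v S c' hk hd hα hcop hsq hW hv hS hsupp hc' hdeg
  obtain ⟨D, hD⟩ : ∃ D : ℝ, D = 2 * (d : ℝ) + (α m).natDegree := ⟨_, rfl⟩
  obtain ⟨A, hA⟩ : ∃ A : ℝ, A = (Fintype.card K : ℝ) ^ (d - W.natDegree) / Ph (α m * W) :=
    ⟨_, rfl⟩
  obtain ⟨Bd, hBd⟩ : ∃ Bd : ℝ, Bd = (Fintype.card K : ℝ) ^ (2 * (R : ℝ) + (1 - c) * d) :=
    ⟨_, rfl⟩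
  have hq2 := q2 (K := K)
  have hq1 : (1 : ℝ) ≤ (Fintype.card K : ℝ) := by linarith
  have hq0 : (0 : ℝ) < (Fintype.card K : ℝ) := by linarith
  have hB0 : 0 ≤ Bd := by
    rw [hBd]
    positivity
  rw [← hD, ← hA]
  -- the two quadratic forms
  have e1 : ∑ T ∈ (Tc K d W v).filter (fun T => Irreducible (fv α β m T)), LT α β S c' T ^ 2 =
      ∑ r : S → Option (Fin k), ∑ s : S → Option (Fin k), c' r * c' s *
        ∑ T ∈ (Tc K d W v).filter (fun T => Irreducible (fv α β m T)),
          ∏ x : S, (ph α β (x : K[X]) T (r x) * ph α β (x : K[X]) T (s x)) := by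
    have h1 : ∀ T : K[X], LT α β S c' T ^ 2 =
        ∑ r : S → Option (Fin k), ∑ s : S → Option (Fin k), c' r * c' s *
          ∏ x : S, (ph α β (x : K[X]) T (r x) * ph α β (x : K[X]) T (s x)) := fun T =>
      sq_exp c' (fun x i => ph α β (x : K[X]) T i)
    rw [Finset.sum_congr rfl fun T _ => h1 T, Finset.sum_comm]
    refine Finset.sum_congr rfl fun r _ => ?_
    rw [Finset.sum_comm]
    refine Finset.sum_congr rfl fun s _ => ?_
    rw [Finset.mul_sum]
  have e2 : ∑ t ∈ Fintype.piFinset (fun x : S => Rs (x : K[X])),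
      (∏ x : S, (((Fintype.card K : ℝ) ^ (x : K[X]).natDegree - 1)⁻¹ *
        (if (x : K[X]) ∣ fv α β m (t x) then 0 else 1))) * LMo α β S c' t ^ 2 =
      ∑ r : S → Option (Fin k), ∑ s : S → Option (Fin k), c' r * c' s *
        ∏ x : S, ∑ t ∈ Rs (x : K[X]), gf α β m (x : K[X]) t *
            (ph α β (x : K[X]) t (r x) * ph α β (x : K[X]) t (s x)) := by
    have h1 : ∀ t : S → K[X], (∏ x : S, (((Fintype.card K : ℝ) ^ (x : K[X]).natDegree - 1)⁻¹ *
        (if (x : K[X]) ∣ fv α β m (t x) then 0 else 1))) * LMo α β S c' t ^ 2 =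
        ∑ r : S → Option (Fin k), ∑ s : S → Option (Fin k), c' r * c' s *
          ∏ x : S, (gf α β m (x : K[X]) (t x) *
            (ph α β (x : K[X]) (t x) (r x) * ph α β (x : K[X]) (t x) (s x))) := by
      intro t
      have h2 : LMo α β S c' t ^ 2 =
        ∑ r : S → Option (Fin k), ∑ s : S → Option (Fin k), c' r * c' s *
          ∏ x : S, (ph α β (x : K[X]) (t x) (r x) * ph α β (x : K[X]) (t x) (s x)) :=
        sq_exp c' (fun x i => ph α β (x : K[X]) (t x) i)
      rw [h2, Finset.mul_sum]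
      refine Finset.sum_congr rfl fun r _ => ?_
      rw [Finset.mul_sum]
      refine Finset.sum_congr rfl fun s _ => ?_
      rw [Finset.prod_mul_distrib (f := fun x : S => gf α β m (x : K[X]) (t x))]
      unfold gf
      ring
    rw [Finset.sum_congr rfl fun t _ => h1 t, Finset.sum_comm]
    refine Finset.sum_congr rfl fun r _ => ?_
    rw [Finset.sum_comm]
    refine Finset.sum_congr rfl fun s _ => ?_
    rw [← Finset.mul_sum, Finset.prod_univ_sum]
  rw [e1, e2]
  -- termwise estimate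
  have hpair : ∀ r s : S → Option (Fin k),
      |c' r * c' s * (D * (∑ T ∈ (Tc K d W v).filter (fun T => Irreducible (fv α β m T)),
          ∏ x : S, (ph α β (x : K[X]) T (r x) * ph α β (x : K[X]) T (s x))) -
        A * ∏ x : S, ∑ t ∈ Rs (x : K[X]), gf α β m (x : K[X]) t *
            (ph α β (x : K[X]) t (r x) * ph α β (x : K[X]) t (s x)))| ≤
      (if tl (fun x : S => (x : K[X]).natDegree) r ≤ R then 1 else 0) *
        ((if tl (fun x : S => (x : K[X]).natDegree) s ≤ R then 1 else 0) * Bd) := by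
    intro r s
    by_cases hr : tl (fun x : S => (x : K[X]).natDegree) r ≤ R
    · by_cases hs : tl (fun x : S => (x : K[X]).natDegree) s ≤ R
      · rw [if_pos hr, if_pos hs, one_mul, one_mul, abs_mul, abs_mul]
        have h1 := pair hcrt α β m W v S hd hα hcop hsq hW hv hS hdeg r s hr hs
        rw [← hD, ← hA, ← hBd] at h1
        have h2 : |c' r| * |c' s| ≤ 1 := mul_le_one₀ (hc' r) (abs_nonneg _) (hc' s)
        calc _ ≤ 1 * Bd := mul_le_mul h2 h1 (abs_nonneg _) zero_le_one
          _ = Bd := one_mul _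
      · have h1 : c' s = 0 := by
          by_contra h
          exact hs (hsupp s h)
        rw [h1, mul_zero, zero_mul, abs_zero]
        exact mul_nonneg (by split_ifs <;> norm_num) (mul_nonneg (by split_ifs <;> norm_num) hB0)
    · have h1 : c' r = 0 := by
        by_contra h
        exact hr (hsupp r h)
      rw [h1, zero_mul, zero_mul, abs_zero]
      exact mul_nonneg (by split_ifs <;> norm_num) (mul_nonneg (by split_ifs <;> norm_num) hB0)
  have hrew : D * (∑ r : S → Option (Fin k), ∑ s : S → Option (Fin k), c' r * c' s *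
        ∑ T ∈ (Tc K d W v).filter (fun T => Irreducible (fv α β m T)),
          ∏ x : S, (ph α β (x : K[X]) T (r x) * ph α β (x : K[X]) T (s x))) -
      A * (∑ r : S → Option (Fin k), ∑ s : S → Option (Fin k), c' r * c' s *
        ∏ x : S, ∑ t ∈ Rs (x : K[X]), gf α β m (x : K[X]) t *
            (ph α β (x : K[X]) t (r x) * ph α β (x : K[X]) t (s x))) =
      ∑ r : S → Option (Fin k), ∑ s : S → Option (Fin k),
        c' r * c' s * (D * (∑ T ∈ (Tc K d W v).filter (fun T => Irreducible (fv α β m T)),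
          ∏ x : S, (ph α β (x : K[X]) T (r x) * ph α β (x : K[X]) T (s x))) -
        A * ∏ x : S, ∑ t ∈ Rs (x : K[X]), gf α β m (x : K[X]) t *
            (ph α β (x : K[X]) t (r x) * ph α β (x : K[X]) t (s x))) := by
    rw [Finset.mul_sum, Finset.mul_sum, ← Finset.sum_sub_distrib]
    refine Finset.sum_congr rfl fun r _ => ?_
    rw [Finset.mul_sum, Finset.mul_sum, ← Finset.sum_sub_distrib]
    refine Finset.sum_congr rfl fun s _ => ?_
    ring
  rw [hrew]
  have hcnt := card_tl (R := R) S hk (fun P hP => ⟨(hS P hP).1, (hS P hP).2.1, (hS P hP).2.2.1⟩)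
  obtain ⟨n, hn⟩ : ∃ n : ℝ, n = (((Finset.univ : Finset (S → Option (Fin k))).filter
      (fun r => tl (fun x : S => (x : K[X]).natDegree) r ≤ R)).card : ℝ) := ⟨_, rfl⟩
  have hn0 : 0 ≤ n := by
    rw [hn]
    positivity
  have hn1 : n ≤ (Fintype.card K : ℝ) ^ (2 * R + 1) := by
    rw [hn]
    exact_mod_cast hcnt
  have hsn : ∑ r : S → Option (Fin k),
      (if tl (fun x : S => (x : K[X]).natDegree) r ≤ R then (1 : ℝ) else 0) = n := by
    rw [hn, Finset.sum_boole]
  calc _ ≤ ∑ r : S → Option (Fin k), ∑ s : S → Option (Fin k),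
      (if tl (fun x : S => (x : K[X]).natDegree) r ≤ R then (1 : ℝ) else 0) *
        ((if tl (fun x : S => (x : K[X]).natDegree) s ≤ R then 1 else 0) * Bd) := by
        refine (Finset.abs_sum_le_sum_abs _ _).trans (Finset.sum_le_sum fun r _ => ?_)
        exact (Finset.abs_sum_le_sum_abs _ _).trans (Finset.sum_le_sum fun s _ => hpair r s)
    _ = n * (n * Bd) := by
        rw [← hsn, Finset.sum_mul, Finset.sum_mul]
        refine Finset.sum_congr rfl fun r _ => ?_
        rw [Finset.mul_sum]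
    _ ≤ (Fintype.card K : ℝ) ^ (2 * R + 1) * ((Fintype.card K : ℝ) ^ (2 * R + 1) * Bd) := by
        gcongr
    _ ≤ (Fintype.card K : ℝ) ^ (6 * (R : ℝ) + 3 + (1 - c) * d) := by
        rw [hBd, ← Real.rpow_natCast, ← Real.rpow_add hq0, ← Real.rpow_add hq0]
        refine Real.rpow_le_rpow_of_exponent_le hq1 ?_
        push_cast
        linarith

end Pool.Agent.H542.LM.MODP
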